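import Pool.Agent.P.MP_97b573_an.Std3

theorem Pool.Agent.Results.MP_97b573_an.AllStandard.result :
    ∃ ω : ℚ → ℝ, (∀ q : ℚ, 0 < q → 0 < ω q) ∧
      (∀ s t : ℚ, 0 < s → 0 < t → ω (s + t) ≤ ω s * ω t) ∧
      (∀ t : ℚ, 0 < t → Filter.Tendsto (fun n : ℕ => ω ((n : ℚ) * t) ^ ((1 : ℝ) / (n : ℝ)))
        Filter.atTop (nhds 0)) ∧
      ∀ I : Set (ℚ → ℂ),
        (∀ f ∈ I, (∀ q : ℚ, q ≤ 0 → f q = 0) ∧ Summable (fun q : ℚ => ‖f q‖ * ω q)) →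
        (0 : ℚ → ℂ) ∈ I →
        (∀ f ∈ I, ∀ g ∈ I, f + g ∈ I) →
        (∀ c : ℂ, ∀ f ∈ I, c • f ∈ I) →
        (∀ a : ℚ → ℂ, (∀ q : ℚ, q ≤ 0 → a q = 0) → Summable (fun q : ℚ => ‖a q‖ * ω q) →
          ∀ f ∈ I, (fun t : ℚ => ∑' s : ℚ, a s * f (t - s)) ∈ I) →
        (∀ f : ℚ → ℂ, (∀ q : ℚ, q ≤ 0 → f q = 0) → Summable (fun q : ℚ => ‖f q‖ * ω q) →
          (∀ ε : ℝ, 0 < ε → ∃ g ∈ I, ∑' q : ℚ, ‖f q - g q‖ * ω q < ε) → f ∈ I) →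
        I = {(0 : ℚ → ℂ)} ∨ ∃ α : ℝ, 0 ≤ α ∧
          (I = {f : ℚ → ℂ | (∀ q : ℚ, q ≤ 0 → f q = 0) ∧ Summable (fun q : ℚ => ‖f q‖ * ω q) ∧
              ∀ q : ℚ, (q : ℝ) < α → f q = 0} ∨
            I = {f : ℚ → ℂ | (∀ q : ℚ, q ≤ 0 → f q = 0) ∧ Summable (fun q : ℚ => ‖f q‖ * ω q) ∧
              ∀ q : ℚ, (q : ℝ) ≤ α → f q = 0}) :=
  ⟨Pool.Agent.P.MP_97b573_an.Std.om, fun q _ => Pool.Agent.P.MP_97b573_an.Std.om_pos q,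
    fun _ _ => Pool.Agent.P.MP_97b573_an.Std.om_add, fun _ => Pool.Agent.P.MP_97b573_an.Std.om_rad,
    fun _ => Pool.Agent.P.MP_97b573_an.Std.main⟩
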