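import Pool.Agent.K.MP_97b573_an.C0

theorem Pool.Agent.Results.MP_97b573_an.BoundedWeights.result (ω : ℚ → ℝ)
    (hpos : ∀ q : ℚ, 0 < q → 0 < ω q)
    (hsub : ∀ s t : ℚ, 0 < s → 0 < t → ω (s + t) ≤ ω s * ω t)
    (hbd : ∃ ε : ℚ, 0 < ε ∧ ∃ K : ℝ, ∀ q : ℚ, 0 < q → q < ε → ω q ≤ K) :
    ∃ I : Set (ℚ → ℂ),
      (∀ f ∈ I, (∀ q : ℚ, q ≤ 0 → f q = 0) ∧ Summable (fun q : ℚ => ‖f q‖ * ω q)) ∧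
      (0 : ℚ → ℂ) ∈ I ∧
      (∀ f ∈ I, ∀ g ∈ I, f + g ∈ I) ∧
      (∀ c : ℂ, ∀ f ∈ I, c • f ∈ I) ∧
      (∀ a : ℚ → ℂ, (∀ q : ℚ, q ≤ 0 → a q = 0) → Summable (fun q : ℚ => ‖a q‖ * ω q) →
        ∀ f ∈ I, (fun t : ℚ => ∑' s : ℚ, a s * f (t - s)) ∈ I) ∧
      (∀ f : ℚ → ℂ, (∀ q : ℚ, q ≤ 0 → f q = 0) → Summable (fun q : ℚ => ‖f q‖ * ω q) →
        (∀ ε : ℝ, 0 < ε → ∃ g ∈ I, ∑' q : ℚ, ‖f q - g q‖ * ω q < ε) → f ∈ I) ∧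
      I ≠ {(0 : ℚ → ℂ)} ∧
      ∀ α : ℝ, 0 ≤ α →
        I ≠ {f : ℚ → ℂ | (∀ q : ℚ, q ≤ 0 → f q = 0) ∧ Summable (fun q : ℚ => ‖f q‖ * ω q) ∧
              ∀ q : ℚ, (q : ℝ) < α → f q = 0} ∧
        I ≠ {f : ℚ → ℂ | (∀ q : ℚ, q ≤ 0 → f q = 0) ∧ Summable (fun q : ℚ => ‖f q‖ * ω q) ∧
              ∀ q : ℚ, (q : ℝ) ≤ α → f q = 0} :=
  Pool.Agent.P.MP_97b573_an.main ω hpos hsub hbd
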